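import Pool.Agent.Y609.WS.Fin2
import Pool.Agent.Y609.WS.Sob

/-!
# MP_08c933_an, Q1: weakly sequentially hypercyclic but not weakly 1-sequentially hypercyclic

Real or complex scalars. Let `X` be a separable Banach space. There is a bounded operator on `X`
which is weakly sequentially hypercyclic but not weakly 1-sequentially hypercyclic, in the
following cases:

* `X` is `ℓ_p` for some `1 < p < ∞` (for instance Hilbert space) or `c_0`, or, more generally, `X`
  has a complemented subspace isomorphic to such an `ℓ_p`, or contains a subspace isomorphic to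
  `c_0`;
* `X` has a complemented subspace isomorphic to the `ℓ_p`-sum, `1 ≤ p < ∞`, or to the `c_0`-sum of
  infinitely many copies of a Banach space `H` without the Schur property.

If `X` has the Schur property then there is no such operator on `X`. If `X` is isomorphic to the
`ℓ_p`-sum or the `c_0`-sum of infinitely many copies of itself then there is such an operator on
`X` if and only if `X` does not have the Schur property.

The operators are those of `Pool.Agent.Y609.WS` (used there for MP_faea85_an).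
-/

set_option autoImplicit false

open Filter Topology
open scoped ENNReal ZeroAtInfty

namespace Pool.Agent.Results.MP_08c933_an.TwoStep

section defs

variable (𝕜 : Type) [RCLike 𝕜] {X : Type} [NormedAddCommGroup X] [NormedSpace 𝕜 X]

/-- The sequence `u` converges weakly to `y`. -/
def WeaklyTendsto (u : ℕ → X) (y : X) : Prop :=
  ∀ φ : X →L[𝕜] 𝕜, Tendsto (fun k => φ (u k)) atTop (𝓝 (φ y))

/-- `M` contains the limit of every weakly convergent sequence of its elements. -/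
def IsWeaklySeqClosed (M : Set X) : Prop :=
  ∀ (u : ℕ → X) (y : X), (∀ k, u k ∈ M) → WeaklyTendsto 𝕜 u y → y ∈ M

/-- `T` is weakly sequentially hypercyclic: for some orbit, the smallest weakly sequentially
closed set containing it is the whole space. -/
def IsWeaklySequentiallyHypercyclic (T : X →L[𝕜] X) : Prop :=
  ∃ x : X, ∀ M : Set X, IsWeaklySeqClosed 𝕜 M → (Set.range fun n : ℕ => (T ^ n) x) ⊆ M →
    M = Set.univ

/-- `T` is weakly 1-sequentially hypercyclic: every vector is the weak limit of a sequence of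
elements of the orbit of the same vector `x`. -/
def IsWeaklyOneSequentiallyHypercyclic (T : X →L[𝕜] X) : Prop :=
  ∃ x : X, ∀ y : X, ∃ u : ℕ → X, (∀ k, u k ∈ Set.range fun n : ℕ => (T ^ n) x) ∧
    WeaklyTendsto 𝕜 u y

/-- `Y` is isomorphic to a complemented subspace of `X`. -/
def ComplementedIn (Y X : Type) [NormedAddCommGroup Y] [NormedSpace 𝕜 Y] [NormedAddCommGroup X]
    [NormedSpace 𝕜 X] : Prop :=
  ∃ (i : Y →L[𝕜] X) (r : X →L[𝕜] Y), ∀ y, r (i y) = y

/-- `Y` is isomorphic to a closed subspace of `X`. -/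
def EmbedsIn (Y X : Type) [NormedAddCommGroup Y] [NormedSpace 𝕜 Y]
    [NormedAddCommGroup X] [NormedSpace 𝕜 X] : Prop :=
  ∃ (i : Y →L[𝕜] X) (δ : ℝ), 0 < δ ∧ ∀ y, δ * ‖y‖ ≤ ‖i y‖

/-- The Schur property. -/
def Schur (X : Type) [NormedAddCommGroup X] [NormedSpace 𝕜 X] : Prop :=
  ∀ (u : ℕ → X) (y : X), WeaklyTendsto 𝕜 u y → Tendsto u atTop (𝓝 y)

/-- There is a weakly sequentially hypercyclic operator on `X` which is not weakly 1-sequentially
hypercyclic. -/
def HasTwoStep (X : Type) [NormedAddCommGroup X] [NormedSpace 𝕜 X] : Prop :=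
  ∃ T : X →L[𝕜] X, IsWeaklySequentiallyHypercyclic 𝕜 T ∧ ¬ IsWeaklyOneSequentiallyHypercyclic 𝕜 T

end defs

section basic

variable {𝕜 : Type} [RCLike 𝕜] {X : Type} [NormedAddCommGroup X] [NormedSpace 𝕜 X]

lemma hasTwoStep_of_found (h : Pool.Agent.Y609.WS.Found2 𝕜 X) : HasTwoStep 𝕜 X := by
  obtain ⟨T, ⟨x, hx⟩, hn⟩ := h
  refine ⟨T, ⟨x, fun M hM hA => Set.eq_univ_of_forall fun y => ?_⟩, ?_⟩
  · obtain ⟨v, hv, hvy⟩ := mem_closure_iff_seq_limit.1 (hx y)
    refine hM v y (fun k => ?_) fun φ => (φ.continuous.tendsto _).comp hvy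
    obtain ⟨n, hn⟩ := hv k
    exact hM (fun j => (T ^ n j) x) (v k) (fun j => hA ⟨n j, rfl⟩) hn
  · rintro ⟨x', hx'⟩
    apply hn x'
    intro y
    obtain ⟨u, hu, huy⟩ := hx' y
    choose n hn using hu
    refine ⟨n, fun φ => ?_⟩
    refine (huy φ).congr fun k => ?_
    rw [← hn k]

lemma one_of_schur (hS : Schur 𝕜 X) {T : X →L[𝕜] X} (h : IsWeaklySequentiallyHypercyclic 𝕜 T) :
    IsWeaklyOneSequentiallyHypercyclic 𝕜 T := by
  obtain ⟨x, hx⟩ := h
  have hd : closure (Set.range fun n : ℕ => (T ^ n) x) = Set.univ := by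
    apply hx _ _ subset_closure
    intro u y hu hy
    exact isClosed_closure.mem_of_tendsto (hS u y hy) (Eventually.of_forall hu)
  refine ⟨x, fun y => ?_⟩
  have hy : y ∈ closure (Set.range fun n : ℕ => (T ^ n) x) := by rw [hd]; trivial
  obtain ⟨v, hv, hvy⟩ := mem_closure_iff_seq_limit.1 hy
  exact ⟨v, hv, fun φ => (φ.continuous.tendsto _).comp hvy⟩

/-- `ℓ_p` and `c_0` are separable. -/
lemma separable_of_sum {B : Type} [NormedAddCommGroup B] [NormedSpace 𝕜 B]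
    (S : Pool.Agent.Y609.WS.SumSp 𝕜 𝕜 B) : TopologicalSpace.SeparableSpace B := by
  have h1 : TopologicalSpace.IsSeparable
      (Submodule.span 𝕜 (Set.range fun i : ℕ => S.ι i (1 : 𝕜)) : Set B) :=
    (Set.countable_range _).isSeparable.span
  rw [← TopologicalSpace.isSeparable_univ_iff]
  refine h1.closure.mono fun x _ => ?_
  rw [Metric.mem_closure_iff]
  intro ε hε
  obtain ⟨N, hN⟩ := S.dense x ε hε
  refine ⟨_, ?_, by rw [dist_eq_norm]; exact hN⟩
  refine Submodule.sum_mem _ fun i _ => ?_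
  have h2 : S.ι i (S.π i x) = S.π i x • S.ι i (1 : 𝕜) := by
    rw [← map_smul, smul_eq_mul, mul_one]
  rw [h2]
  exact Submodule.smul_mem _ _ (Submodule.subset_span ⟨i, rfl⟩)

end basic

/-- A positive answer to Q1: there are weakly sequentially hypercyclic operators which are not
weakly 1-sequentially hypercyclic on `ℓ_p`, `1 < p < ∞`, on `c_0` and on the further separable
Banach spaces of the first three items of the second part; there are none on spaces with the Schur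
property. -/
theorem result (𝕜 : Type) [RCLike 𝕜] :
    (∀ (p : ℝ≥0∞) [Fact (1 ≤ p)], 1 < p → p ≠ ∞ → HasTwoStep 𝕜 (lp (fun _ : ℕ => 𝕜) p)) ∧
    HasTwoStep 𝕜 C₀(ℕ, 𝕜) ∧
    ∀ (X : Type) [NormedAddCommGroup X] [NormedSpace 𝕜 X] [CompleteSpace X]
      [TopologicalSpace.SeparableSpace X],
      ((∃ (p : ℝ≥0∞) (_ : Fact (1 ≤ p)), 1 < p ∧ p ≠ ∞ ∧
          ComplementedIn 𝕜 (lp (fun _ : ℕ => 𝕜) p) X) → HasTwoStep 𝕜 X) ∧
      (EmbedsIn 𝕜 C₀(ℕ, 𝕜) X → HasTwoStep 𝕜 X) ∧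
      ((∃ (H : Type) (_ : NormedAddCommGroup H) (_ : NormedSpace 𝕜 H) (_ : CompleteSpace H),
          ¬ Schur 𝕜 H ∧
          ((∃ (p : ℝ≥0∞) (_ : Fact (1 ≤ p)), p ≠ ∞ ∧
              ComplementedIn 𝕜 (lp (fun _ : ℕ => H) p) X) ∨ ComplementedIn 𝕜 C₀(ℕ, H) X)) →
        HasTwoStep 𝕜 X) ∧
      (Schur 𝕜 X → ¬ HasTwoStep 𝕜 X) ∧
      (((∃ (p : ℝ≥0∞) (_ : Fact (1 ≤ p)), p ≠ ∞ ∧ Nonempty (X ≃L[𝕜] lp (fun _ : ℕ => X) p)) ∨
          Nonempty (X ≃L[𝕜] C₀(ℕ, X))) → (HasTwoStep 𝕜 X ↔ ¬ Schur 𝕜 X)) := by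
  have hlp : ∀ (p : ℝ≥0∞) [Fact (1 ≤ p)], 1 < p → p ≠ ∞ →
      HasTwoStep 𝕜 (lp (fun _ : ℕ => 𝕜) p) := by
    intro p hp1 h1 hp
    have : TopologicalSpace.SeparableSpace (lp (fun _ : ℕ => 𝕜) p) :=
      separable_of_sum (Pool.Agent.Y609.WS.lpSum hp)
    exact hasTwoStep_of_found (Pool.Agent.Y609.WS.found2_lp h1 hp
      ⟨ContinuousLinearMap.id 𝕜 _, ContinuousLinearMap.id 𝕜 _, fun _ => rfl⟩)
  have hc0 : HasTwoStep 𝕜 C₀(ℕ, 𝕜) := by
    have : TopologicalSpace.SeparableSpace C₀(ℕ, 𝕜) :=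
      separable_of_sum (Pool.Agent.Y609.WS.c0Sum 𝕜 𝕜)
    exact hasTwoStep_of_found (Pool.Agent.Y609.WS.found2_c0
      ⟨ContinuousLinearMap.id 𝕜 _, ContinuousLinearMap.id 𝕜 _, fun _ => rfl⟩)
  refine ⟨hlp, hc0, ?_⟩
  intro X _ _ _ _
  have h1 : (∃ (H : Type) (_ : NormedAddCommGroup H) (_ : NormedSpace 𝕜 H) (_ : CompleteSpace H),
        ¬ Schur 𝕜 H ∧
        ((∃ (p : ℝ≥0∞) (_ : Fact (1 ≤ p)), p ≠ ∞ ∧
            ComplementedIn 𝕜 (lp (fun _ : ℕ => H) p) X) ∨ ComplementedIn 𝕜 C₀(ℕ, H) X)) →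
      HasTwoStep 𝕜 X := by
    rintro ⟨H, _, _, _, hH, h⟩
    unfold Schur at hH
    push Not at hH
    obtain ⟨u, v, hw, hn⟩ := hH
    rcases h with ⟨p, hp1, hp, hc⟩ | hc
    · exact hasTwoStep_of_found
        (Pool.Agent.Y609.WS.found2_of_sum (Pool.Agent.Y609.WS.lpSum hp) hc u v hw hn)
    · exact hasTwoStep_of_found
        (Pool.Agent.Y609.WS.found2_of_sum (Pool.Agent.Y609.WS.c0Sum 𝕜 H) hc u v hw hn)
  have h4 : Schur 𝕜 X → ¬ HasTwoStep 𝕜 X := by
    rintro hS ⟨T, hT, hn⟩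
    exact hn (one_of_schur hS hT)
  refine ⟨?_, ?_, h1, h4, fun h => ⟨fun hT hS => h4 hS hT, fun hS => ?_⟩⟩
  · rintro ⟨p, hp1, h1, hp, hc⟩
    exact hasTwoStep_of_found (Pool.Agent.Y609.WS.found2_lp h1 hp hc)
  · rintro ⟨i, δ, hδ, hi⟩
    have hc := Pool.Agent.Y609.WS.sobczyk i hδ hi
    exact hasTwoStep_of_found (Pool.Agent.Y609.WS.found2_c0 hc)
  · apply h1
    refine ⟨X, inferInstance, inferInstance, inferInstance, hS, ?_⟩
    rcases h with ⟨p, hp1, hp, ⟨e⟩⟩ | h'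
    · exact Or.inl ⟨p, hp1, hp, e.symm, e, fun y => e.apply_symm_apply y⟩
    · obtain ⟨e⟩ := h'
      exact Or.inr ⟨e.symm, e, fun y => e.apply_symm_apply y⟩

end Pool.Agent.Results.MP_08c933_an.TwoStep
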